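import Pool.Agent.W845.GL.Stm

/-!
# No kernel has the limit densities
-/

set_option autoImplicit false

namespace Pool.Agent.W493.GL

open Pool.Agent.W845.GL Filter MeasureTheory
open scoped Topology

theorem ne : S_KI → S_KP → S_PN → S_K6 → S_VB → S_NE := by
  intro hKI hKP hPN hK6 hVB κ hm h0 hmom
  have hRM := hKI κ hm h0 hmom
  choose q hq using fun N : ℕ => hPN (N + 4) (by omega)
  have h1 := fun N => hKP κ hRM (q N)
  have h2 := fun N => hKP κ hRM (q N ^ 2)
  have hsq : ∀ (N : ℕ) (v : Fin 2 → ℝ),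
      MvPolynomial.eval v (q N ^ 2) = MvPolynomial.eval v (q N) ^ 2 := fun N v => map_pow _ _ _
  have hlim := hK6 (fun z => κ z.1 z.2)
    (fun N z => MvPolynomial.eval ![dg κ z.1, dg κ z.2] (q N)) 24
    (fun z => h0 z.1 z.2) hRM.2.1 (fun N => (h1 N).1)
    (fun N => by
      have := (h2 N).1
      simp only [hsq] at this
      exact this)
    (fun N => (h1 N).2.1)
    (fun N => by
      have := (h2 N).2.1
      simp only [hsq] at this
      exact this)
    (fun N => by
      have ht := (h2 N).2.2.2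
      have hle := le_of_tendsto ht (Filter.eventually_atTop.2 ⟨N + 4, fun i hi => (hq N i hi).2.1⟩)
      simp only [hsq] at hle
      exact hle)
    (by
      have hb : ∀ N : ℕ, ∫ z : ℝ × ℝ, MvPolynomial.eval ![dg κ z.1, dg κ z.2] (q N) ^ 2
          ∂(mu.prod mu) ≤ 2 / VV (N + 4) + 2 / ((N + 4 : ℕ) : ℝ) ^ 2 := by
        intro N
        have ht := (h2 N).2.2.1
        have hle := le_of_tendsto ht
          (Filter.eventually_atTop.2 ⟨N + 4, fun i hi => (hq N i hi).1⟩)
        simp only [hsq] at hle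
        exact hle
      have hVV : Tendsto (fun N : ℕ => 2 / VV (N + 4)) atTop (𝓝 0) := by
        have hV : Tendsto (fun N : ℕ => VV (N + 4)) atTop atTop :=
          hVB.2.comp (tendsto_add_atTop_nat 4)
        exact hV.const_div_atTop 2
      have hN : Tendsto (fun N : ℕ => 2 / ((N + 4 : ℕ) : ℝ) ^ 2) atTop (𝓝 0) := by
        have hc : Tendsto (fun N : ℕ => ((N + 4 : ℕ) : ℝ)) atTop atTop :=
          tendsto_natCast_atTop_atTop.comp (tendsto_add_atTop_nat 4)
        have hc2 : Tendsto (fun N : ℕ => ((N + 4 : ℕ) : ℝ) ^ 2) atTop atTop :=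
          (tendsto_pow_atTop (by norm_num)).comp hc
        exact hc2.const_div_atTop 2
      have hsum : Tendsto (fun N : ℕ => 2 / VV (N + 4) + 2 / ((N + 4 : ℕ) : ℝ) ^ 2) atTop
          (𝓝 0) := by
        have := hVV.add hN
        rwa [add_zero] at this
      exact squeeze_zero (fun N => integral_nonneg fun z => sq_nonneg _) hb hsum)
  have hge : ∀ N : ℕ, (1 / 2 : ℝ) ≤ ∫ z : ℝ × ℝ, κ z.1 z.2 *
      MvPolynomial.eval ![dg κ z.1, dg κ z.2] (q N) ∂(mu.prod mu) := by
    intro N
    exact ge_of_tendsto (h1 N).2.2.2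
      (Filter.eventually_atTop.2 ⟨N + 4, fun i hi => (hq N i hi).2.2⟩)
  have hfin : (1 / 2 : ℝ) ≤ 0 := ge_of_tendsto' hlim hge
  norm_num at hfin

end Pool.Agent.W493.GL
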